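import Pool.Agent.W2helper13.CE.Fin

set_option autoImplicit false

/-!
# The graph measure is not lower semicontinuous on `Homeo([0,1]^d)` for `d ≥ 4`

For every `d ≥ 4` there is a homeomorphism `f` of the cube `[0,1]^d` with `H^d(graph f) < ∞` and a real number
`c < H^d(graph f)` such that every ball of the uniform metric about `f` contains a bi-Lipschitz homeomorphism `g`
of the cube with `H^d(graph g) ≤ c`.
-/

open MeasureTheory Set
open scoped ENNReal NNReal

namespace Pool.Agent.Results.MP_ccb05f_an.NotLsc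

/-- The cube `[0,1]^d` in Euclidean space. -/
def Cube (d : ℕ) : Set (EuclideanSpace ℝ (Fin d)) := {x | ∀ i, x i ∈ Icc (0 : ℝ) 1}

/-- The graph `{(x, f(x)) : x ∈ [0,1]^d}`, a subset of `ℝ^{2d}` with the Euclidean metric. -/
def graph {d : ℕ} (f : Cube d ≃ₜ Cube d) : Set (EuclideanSpace ℝ (Fin d ⊕ Fin d)) :=
  Set.range fun x : Cube d => WithLp.toLp 2 (Sum.elim (fun i => x.1 i) (fun i => (f x).1 i))

open Pool.Agent.W2helper13.CE in
theorem result (d : ℕ) (hd : 4 ≤ d) :
    ∃ (f : Cube d ≃ₜ Cube d) (c : ℝ),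
      Measure.hausdorffMeasure (d : ℝ) (graph f) < ⊤ ∧
      ENNReal.ofReal c < Measure.hausdorffMeasure (d : ℝ) (graph f) ∧
      ∀ ε > 0, ∃ g : Cube d ≃ₜ Cube d, (∀ x, dist (f x) (g x) < ε) ∧
        Measure.hausdorffMeasure (d : ℝ) (graph g) ≤ ENNReal.ofReal c ∧
        ∃ K : ℝ≥0, LipschitzWith K g ∧ LipschitzWith K g.symm := by
  let I : Ix d :=
    { i0 := ⟨0, by omega⟩, i1 := ⟨1, by omega⟩, i2 := ⟨2, by omega⟩, i3 := ⟨3, by omega⟩
      h01 := by simp, h02 := by simp, h03 := by simp, h12 := by simp, h13 := by simp, h23 := by simp }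
  have hfin : Measure.hausdorffMeasure (d : ℝ) (graphSet (cubeHomeo I Pi')) < ⊤ := graph_fin I
  have hlow := graph_lower I
  have hpos := Ec_pos I
  have hM : Measure.hausdorffMeasure (d : ℝ) (⋃ m, Em I m) ≠ ⊤ := by
    have := (Einf_meas I).trans_lt
      (ENNReal.mul_lt_top (lt_top_iff_ne_top.mpr (KK_ne_top d)) ENNReal.ofReal_lt_top)
    exact this.ne
  obtain ⟨r, hr0, hr⟩ := ENNReal.lt_iff_exists_nnreal_btwn.mp hpos
  have hr0' : (0 : ℝ≥0) < r := by exact_mod_cast hr0
  set M := Measure.hausdorffMeasure (d : ℝ) (⋃ m, Em I m) with hMdef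
  have hc : ENNReal.ofReal (M.toReal + r) = M + r := by
    rw [ENNReal.ofReal_add ENNReal.toReal_nonneg (NNReal.coe_nonneg r), ENNReal.ofReal_toReal hM,
      ENNReal.ofReal_coe_nnreal]
  refine ⟨cubeHomeo I Pi', M.toReal + r, hfin, ?_, ?_⟩
  · rw [hc]
    exact (ENNReal.add_lt_add_left hM hr).trans_le hlow
  · intro ε hε
    have h0 : Filter.Tendsto (fun m : ℕ => (C1 d : ℝ) * (1/2)^m) Filter.atTop (nhds ((C1 d : ℝ) * 0)) :=
      (tendsto_pow_atTop_nhds_zero_of_lt_one (by norm_num) (by norm_num)).const_mul _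
    rw [mul_zero] at h0
    have h1 := h0.eventually (gt_mem_nhds hε)
    have h2 : Filter.Tendsto (fun m : ℕ => KK d * ENNReal.ofReal ((1/4)^m)) Filter.atTop
        (nhds (KK d * ENNReal.ofReal 0)) := by
      apply ENNReal.Tendsto.const_mul
      · exact ENNReal.tendsto_ofReal (tendsto_pow_atTop_nhds_zero_of_lt_one (by norm_num) (by norm_num))
      · right; exact KK_ne_top d
    rw [ENNReal.ofReal_zero, mul_zero] at h2
    have h3 := h2.eventually (gt_mem_nhds hr0)
    obtain ⟨m, hm1, hm3⟩ := (h1.and h3).exists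
    refine ⟨cubeHomeo I (Pm m), fun x => (stage_close I m x).trans_lt hm1, ?_, ?_⟩
    · rw [hc]
      exact (graph_m_meas I m).trans (add_le_add (le_refl _) hm3.le)
    · obtain ⟨K1, hK1⟩ := stage_lip I m
      obtain ⟨K2, hK2⟩ := stage_antilip I m
      exact ⟨max K1 K2, hK1.weaken (le_max_left _ _), hK2.weaken (le_max_right _ _)⟩

end Pool.Agent.Results.MP_ccb05f_an.NotLsc
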