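import Pool.Agent.W2helper15.GM.Homeo

/-!
# The graph measure on `Homeo([0,1]^d)` is not lower semicontinuous for `d ≥ 4`

For every `d ≥ 4` there is a homeomorphism `f` of the cube `[0,1]^d` onto itself whose graph has
infinite `d`-dimensional Hausdorff measure and which is a uniform limit of homeomorphisms of the
cube whose graphs have bounded `d`-dimensional Hausdorff measure.

The homeomorphisms are shears `(x, y, z) ↦ (x, y + Φ(x) θ(y), z)` with `x, y ∈ [0,1]²` and
`z ∈ [0,1]^(d-4)`, where `θ(t) = min (t, 1 - t, 1/4)` is applied to the two coordinates of `y` and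
`Φ : [0,1]² → ℝ²` has values in a small square. The map `Φ` is the sum of a series. Its `j`-th term
lives on `8 ^ j` tiny squares; on each of them it moves `8` much smaller squares from the next
generation to `8` places of a square of side about `2 ^ (- j)`, and it is cut off outside of them by
a logarithmic cut-off function, so that the square of its local Lipschitz constant has a small
integral (the capacity of a point in the plane vanishes). Hence the partial sums of `Φ` are
Lipschitz with bounded Dirichlet energies, and the graph measures of the corresponding shears are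
bounded, whereas the `8 ^ j` tiny squares of generation `j` have images which contain squares of area
about `4 ^ (- j)` (they overlap heavily), so the graph measure of the limit is at least a constant
times `8 ^ j 4 ^ (- j) = 2 ^ j` for every `j`.
-/

set_option autoImplicit false

namespace Pool.Agent.Results.MP_ccb05f_an.NotSemicontinuous

open MeasureTheory Measure Pool.Agent.W2helper15.GM

open scoped ENNReal NNReal

/-- The cube `[0,1]^d` in the Euclidean space `ℝ^d`. -/
def Cube (d : ℕ) : Set (EuclideanSpace ℝ (Fin d)) := {x | ∀ i, x i ∈ Set.Icc (0 : ℝ) 1}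

/-- The graph of `f`, a subset of the Euclidean space `ℝ^(2d)`: the set of the points whose first
`d` coordinates form a point `x` of the cube and whose last `d` coordinates form the point `f x`. -/
def graph {d : ℕ} (f : Cube d ≃ₜ Cube d) : Set (EuclideanSpace ℝ (Fin d ⊕ Fin d)) :=
  {v | ∃ x : Cube d, (∀ i, v (Sum.inl i) = (x : EuclideanSpace ℝ (Fin d)) i) ∧
    ∀ i, v (Sum.inr i) = (f x : EuclideanSpace ℝ (Fin d)) i}

/-- The uniform distance `ρ(f, g) = max_x |f(x) - g(x)|`. -/
noncomputable def rho {d : ℕ} (f g : Cube d ≃ₜ Cube d) : ℝ := ⨆ x : Cube d, dist (f x) (g x)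

lemma Cube_eq (d : ℕ) : Cube d = WithLp.toLp 2 '' (Set.Icc (0 : Fin d → ℝ) 1) := by
  ext x
  constructor
  · intro hx
    exact ⟨WithLp.ofLp x, ⟨fun i => (hx i).1, fun i => (hx i).2⟩, rfl⟩
  · rintro ⟨w, hw, rfl⟩ i
    exact ⟨hw.1 i, hw.2 i⟩

instance (d : ℕ) : CompactSpace (Cube d) := by
  rw [← isCompact_iff_compactSpace, Cube_eq]
  exact isCompact_Icc.image (PiLp.continuous_toLp 2 _)

instance (d : ℕ) : Nonempty (Cube d) := ⟨⟨0, fun _ => ⟨le_rfl, zero_le_one⟩⟩⟩

variable {d : ℕ}

/-- the shear of the cube, as a bijection -/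
noncomputable def homE (c : Four d) (g : P → P) (hg : ∀ x, ‖g x‖ ≤ 1 / 2) : Cube d ≃ Cube d :=
  Equiv.ofBijective
    (fun x => ⟨WithLp.toLp 2 (T c g (WithLp.ofLp x.1)), fun i => T_mem c hg x.2 i⟩) (by
      constructor
      · intro x y h
        have h1 := congrArg Subtype.val h
        have h2 := T_inj c hg (WithLp.toLp_injective 2 h1)
        exact Subtype.ext (WithLp.ofLp_injective 2 h2)
      · intro v
        obtain ⟨w, hw, hw'⟩ := T_surj c g v.2
        exact ⟨⟨WithLp.toLp 2 w, hw⟩, Subtype.ext (congrArg (WithLp.toLp 2) hw')⟩)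

/-- the shear of the cube, as a homeomorphism -/
noncomputable def hom (c : Four d) (g : P → P) (hg : ∀ x, ‖g x‖ ≤ 1 / 2) (hc : Continuous g) :
    Cube d ≃ₜ Cube d :=
  Continuous.homeoOfEquivCompactToT2 (f := homE c g hg) (by
    refine Continuous.subtype_mk ?_ _
    exact (PiLp.continuous_toLp 2 _).comp ((T_cont c hc).comp
      ((PiLp.continuous_ofLp 2 _).comp continuous_subtype_val)))

lemma hom_apply (c : Four d) (g : P → P) (hg : ∀ x, ‖g x‖ ≤ 1 / 2) (hc : Continuous g)
    (x : Cube d) : ((hom c g hg hc x : Cube d) : EuclideanSpace ℝ (Fin d)) =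
      WithLp.toLp 2 (T c g (WithLp.ofLp x.1)) := rfl

lemma graph_hom (c : Four d) (g : P → P) (hg : ∀ x, ‖g x‖ ≤ 1 / 2) (hc : Continuous g) :
    graph (hom c g hg hc) = F c g '' Cyl c Set.univ := by
  ext v
  constructor
  · rintro ⟨x, h1, h2⟩
    refine ⟨WithLp.ofLp x.1, ⟨x.2, trivial⟩, ?_⟩
    ext k
    rcases k with i | i
    · exact (h1 i).symm
    · exact (h2 i).symm
  · rintro ⟨w, hw, rfl⟩
    exact ⟨⟨WithLp.toLp 2 w, hw.1⟩, fun i => rfl, fun i => rfl⟩

lemma rho_le (c : Four d) {g g' : P → P} (hg : ∀ x, ‖g x‖ ≤ 1 / 2) (hc : Continuous g)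
    (hg' : ∀ x, ‖g' x‖ ≤ 1 / 2) (hc' : Continuous g') {δ : ℝ} (h : ∀ x, ‖g x - g' x‖ ≤ δ) :
    rho (hom c g hg hc) (hom c g' hg' hc') ≤ Real.sqrt d * δ := by
  have hδ : 0 ≤ δ := (norm_nonneg _).trans (h 0)
  refine ciSup_le fun x => ?_
  rw [Subtype.dist_eq, hom_apply, hom_apply, EuclideanSpace.dist_eq]
  have h1 : ∑ i : Fin d, dist (T c g (WithLp.ofLp x.1) i) (T c g' (WithLp.ofLp x.1) i) ^ 2 ≤
      d * δ ^ 2 := by
    refine (Finset.sum_le_sum fun i _ => pow_le_pow_left₀ dist_nonneg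
      ((Real.dist_eq _ _).le.trans (T_dist c h x.2 i)) 2).trans ?_
    simp
  calc Real.sqrt (∑ i : Fin d, dist (T c g (WithLp.ofLp x.1) i) (T c g' (WithLp.ofLp x.1) i) ^ 2)
      ≤ Real.sqrt (d * δ ^ 2) := Real.sqrt_le_sqrt h1
    _ = Real.sqrt d * δ := by
      rw [Real.sqrt_mul (Nat.cast_nonneg d), Real.sqrt_sq hδ]

/-- four different coordinates -/
def four (hd : 4 ≤ d) : Four d where
  a := ⟨0, by omega⟩
  b := ⟨1, by omega⟩
  p := ⟨2, by omega⟩
  q := ⟨3, by omega⟩
  hab := by simp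
  hap := by simp
  haq := by simp
  hbp := by simp
  hbq := by simp
  hpq := by simp

/-- **Theorem** (the negated form of Q1 for all `d ≥ 4`). Let `d ≥ 4`. There is a homeomorphism `f`
of the cube `[0,1]^d` onto itself whose graph has infinite `d`-dimensional Hausdorff measure, and
there is a constant `C` such that every `ρ`-ball about `f` contains a homeomorphism whose graph has
`d`-dimensional Hausdorff measure at most `C`. In particular, it is not true that for all real `c`
the set of the homeomorphisms `f` of the cube with graph measure `> c` is open. -/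
theorem result (d : ℕ) (hd : 4 ≤ d) :
    (∃ C : ℝ≥0, ∃ f : Cube d ≃ₜ Cube d, μH[(d : ℝ)] (graph f) = ∞ ∧
      ∀ ε > 0, ∃ g : Cube d ≃ₜ Cube d, rho f g < ε ∧ μH[(d : ℝ)] (graph g) ≤ C) ∧
    ¬ ∀ c : ℝ, ∀ f : Cube d ≃ₜ Cube d, (c : EReal) < μH[(d : ℝ)] (graph f) →
      ∃ ε > 0, ∀ g : Cube d ≃ₜ Cube d, rho f g < ε → (c : EReal) < μH[(d : ℝ)] (graph g) := by
  have main : ∃ C : ℝ≥0, ∃ f : Cube d ≃ₜ Cube d, μH[(d : ℝ)] (graph f) = ∞ ∧
      ∀ ε > 0, ∃ g : Cube d ≃ₜ Cube d, rho f g < ε ∧ μH[(d : ℝ)] (graph g) ≤ C := by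
    have hfin : (KK d : ℝ≥0∞) ^ (d : ℝ) * ENNReal.ofReal 34 ≠ ∞ :=
      ENNReal.mul_ne_top (ENNReal.rpow_ne_top_of_nonneg (Nat.cast_nonneg d) ENNReal.coe_ne_top)
        ENNReal.ofReal_ne_top
    refine ⟨((KK d : ℝ≥0∞) ^ (d : ℝ) * ENNReal.ofReal 34).toNNReal,
      hom (four hd) gL gL_norm gL_cont, ?_, fun ε hε => ?_⟩
    · rw [graph_hom]
      exact H_gL (four hd)
    · obtain ⟨k, hk⟩ := exists_pow_lt_of_lt_one (show 0 < ε / (Real.sqrt d + 1) by positivity)
        (show (1 / 2 : ℝ) < 1 by norm_num)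
      refine ⟨hom (four hd) (gk k) (gk_norm k) (gk_cont k), ?_, ?_⟩
      · refine (rho_le (four hd) _ _ _ _ (δ := (1 / 2) ^ k) fun x => ?_).trans_lt ?_
        · rw [norm_sub_rev]
          exact gk_gL k x
        · rw [lt_div_iff₀ (by positivity)] at hk
          have h1 : (0 : ℝ) < (1 / 2) ^ k := by positivity
          linarith
      · rw [graph_hom, ENNReal.coe_toNNReal hfin]
        exact H_gk (four hd) k
  refine ⟨main, fun hall => ?_⟩
  obtain ⟨C, f, hf, hC⟩ := main
  obtain ⟨ε, hε, h⟩ := hall (C : ℝ) f (by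
    rw [hf]
    exact EReal.coe_lt_top _)
  obtain ⟨g, hg, hg'⟩ := hC ε hε
  have h1 := h g hg
  have h2 : ((μH[(d : ℝ)] (graph g) : ℝ≥0∞) : EReal) ≤ ((C : ℝ≥0∞) : EReal) :=
    EReal.coe_ennreal_le_coe_ennreal_iff.2 hg'
  have h3 : ((C : ℝ≥0∞) : EReal) = ((C : ℝ) : EReal) := rfl
  rw [h3] at h2
  exact absurd h1 (not_lt.2 h2)

end Pool.Agent.Results.MP_ccb05f_an.NotSemicontinuous
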